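import Mathlib

set_option autoImplicit false

open Filter Finset

namespace Pool.Agent.Results.MP_0ebc21_nt.Full

/-- Coefficient of `q ^ N` in `Ψ(-q^a, q)`. The index `n = m ≥ 0` gives the term
`(-1)^C(m+1,2) q^(a C(m+1,2) + C(m,2))`, the index `n = -(m+1)` gives the term
`-(-1)^C(m+1,2) q^(a C(m+1,2) + C(m+2,2))`; for `a ≥ 1` only `m ≤ N` can contribute. -/
def psi (a N : ℕ) : ℤ := ∑ m ∈ range (N + 1), (-1) ^ (m + 1).choose 2 *
  ((if a * (m + 1).choose 2 + m.choose 2 = N then 1 else 0) -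
    (if a * (m + 1).choose 2 + (m + 2).choose 2 = N then 1 else 0))

lemma ch (m : ℕ) : (m + 1).choose 2 = m.choose 2 + m := by simp [Nat.choose_succ_succ, add_comm]

lemma fib (s : ℕ → ℝ) (hs : ∀ m, |s m| ≤ 1) (e : ℕ → ℕ) (he : ∀ m, m ≤ e m) {x : ℝ} (h0 : 0 ≤ x)
    (h1 : x < 1) : Summable (fun m => s m * x ^ e m) ∧
      HasSum (fun N => (∑ m ∈ range (N + 1), s m * if e m = N then 1 else 0) * x ^ N)
        (∑' m, s m * x ^ e m) := by
  have S : Summable fun m => s m * x ^ e m :=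
    .of_norm_bounded (summable_geometric_of_lt_one h0 h1) fun m => by
      rw [Real.norm_eq_abs, abs_mul, abs_of_nonneg (pow_nonneg h0 _)]
      exact (mul_le_of_le_one_left (pow_nonneg h0 _) (hs m)).trans
        (pow_le_pow_of_le_one h0 h1.le (he m))
  refine ⟨S, ?_⟩
  refine (S.hasSum.tsum_fiberwise e).congr_fun fun N => ?_
  rw [_root_.tsum_subtype _ fun m => s m * x ^ e m, tsum_eq_sum (s := range (N + 1)) fun m hm => by
    have := he m
    exact Set.indicator_of_notMem (by simp at hm ⊢; omega) _, sum_mul]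
  refine sum_congr rfl fun m _ => ?_
  by_cases h : e m = N <;> simp [h]

noncomputable def f (a : ℕ) (x : ℝ) (m : ℕ) : ℝ := (-1) ^ (m + 1).choose 2 *
  (x ^ (a * (m + 1).choose 2 + m.choose 2) - x ^ (a * (m + 1).choose 2 + (m + 2).choose 2))

lemma le_e {a : ℕ} (ha : 1 ≤ a) (m b : ℕ) : m ≤ a * (m + 1).choose 2 + b := by
  have := ch m
  nlinarith

lemma sum_psi {a : ℕ} (ha : 1 ≤ a) {x : ℝ} (h0 : 0 ≤ x) (h1 : x < 1) :
    Summable (f a x) ∧ HasSum (fun N => (psi a N : ℝ) * x ^ N) (∑' m, f a x m) := by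
  obtain ⟨a1, a2⟩ := fib (fun m => (-1) ^ (m + 1).choose 2) (by simp) _
    (fun m => le_e ha m (m.choose 2)) h0 h1
  obtain ⟨b1, b2⟩ := fib (fun m => (-1) ^ (m + 1).choose 2) (by simp) _
    (fun m => le_e ha m ((m + 2).choose 2)) h0 h1
  refine ⟨(a1.sub b1).congr fun m => by simp only [f, mul_sub], ?_⟩
  simp only [f, mul_sub, a1.tsum_sub b1]
  refine (a2.sub b2).congr_fun fun N => ?_
  simp only [psi, mul_sub, sum_sub_distrib]
  push_cast
  ring

lemma f_abs (a m : ℕ) {x : ℝ} (h0 : 0 ≤ x) (h1 : x ≤ 1) :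
    |f a x m| ≤ (x ^ a) ^ (m + 1).choose 2 * ((2 * m + 1) * (1 - x)) := by
  have e : (m + 2).choose 2 = m.choose 2 + (2 * m + 1) := by rw [ch, ch]; ring
  have b := one_add_mul_le_pow (a := x - 1) (by linarith) (2 * m + 1)
  have c : x ^ (2 * m + 1) ≤ 1 := pow_le_one₀ h0 h1
  rw [f, abs_mul, e, pow_add, pow_add, pow_add, pow_mul, ← mul_sub, ← mul_one_sub,
    abs_of_nonneg (a := _ * (_ * _)) (by have := sub_nonneg.2 c; positivity)]
  simp only [abs_pow, abs_neg, abs_one, one_pow, one_mul]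
  refine mul_le_mul_of_nonneg_left ?_ (by positivity)
  refine (mul_le_of_le_one_left (sub_nonneg.2 c) (pow_le_one₀ h0 h1)).trans ?_
  simp only [add_sub_cancel] at b
  push_cast at b
  linarith

lemma neg {a : ℕ} (ha : 1 ≤ a) {x : ℝ} (h0 : 5 / 8 ≤ x) (h1 : x < 1) (hx : x ^ a = 5 / 8) :
    ∑' m, f a x m < 0 := by
  have S := (sum_psi ha (by linarith) h1).1
  have T : ∀ m, 6 + 4 * m ≤ (m + 3 + 1).choose 2 := fun m => by
    induction m with
    | zero => decide
    | succ m ih => rw [ch]; ring_nf at ih ⊢; omega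
  have G := (hasSum_geometric_of_lt_one (r := 2 * (5 / 8) ^ 4) (by norm_num) (by norm_num)).mul_left
    (7 * (5 / 8) ^ 6 * (1 - x))
  have := hasSum_le (fun m => ?_) ((summable_nat_add_iff 3).2 S).hasSum G
  · rw [← S.sum_add_tsum_nat_add 3]
    have x3 : x ^ (a * 3) = (5 / 8) ^ 3 := by rw [pow_mul, hx]
    simp only [sum_range_succ, sum_range_zero]
    simp [f, Nat.choose, pow_add, hx, x3] at this ⊢
    have p : 0 < 1 - x := by linarith
    have x2 : (5 / 8) ^ 2 ≤ x ^ 2 := by gcongr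
    have x3 : (5 / 8) ^ 3 ≤ x ^ 3 := by gcongr
    have x4 : (5 / 8) ^ 4 ≤ x ^ 4 := by gcongr
    have x5 : (5 / 8) ^ 5 ≤ x ^ 5 := by gcongr
    nlinarith
  · refine (le_abs_self _).trans ((f_abs a _ (by linarith) h1.le).trans ?_)
    have : (m : ℝ) < 2 ^ m := by exact_mod_cast Nat.lt_two_pow_self
    have : (1 : ℝ) ≤ 2 ^ m := one_le_pow₀ one_le_two
    have p : 0 < 1 - x := by linarith
    rw [hx]
    calc _ ≤ (5 / 8 : ℝ) ^ (6 + 4 * m) * (7 * 2 ^ m * (1 - x)) := by
          refine mul_le_mul (pow_le_pow_of_le_one (by norm_num) (by norm_num) (T m))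
            (mul_le_mul_of_nonneg_right ?_ p.le) (by positivity) (by positivity)
          have : (m : ℝ) + 1 ≤ 2 ^ m := by exact_mod_cast Nat.lt_two_pow_self
          push_cast
          linarith
      _ = _ := by rw [pow_add, pow_mul, mul_pow]; ring

theorem result (a : ℕ) (ha : 1 ≤ a) (c : ℕ → ℤ)
    (hc : PowerSeries.mk c * PowerSeries.mk (psi a) = 1) :
    ∃ β : ℝ, 1 < β ∧ ∃ᶠ n in atTop, β ^ n ≤ |(c n : ℝ)| := by
  by_contra! h
  obtain ⟨x, h0, hx⟩ : ∃ x : ℝ, 0 ≤ x ∧ x ^ a = 5 / 8 :=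
    ⟨_, by positivity, Real.rpow_inv_natCast_pow (by norm_num) (by omega)⟩
  have h1 : x < 1 := by
    by_contra! d
    linarith [one_le_pow₀ (n := a) d]
  have h2 : 5 / 8 ≤ x := hx ▸ pow_le_of_le_one h0 h1.le (by omega)
  have C : ContinuousOn (fun y => ∑' m, f a y m) (Set.Icc 0 x) := by
    refine continuousOn_tsum (fun m => by unfold f; fun_prop)
      ((summable_geometric_of_lt_one h0 h1).mul_left 2) fun m y hy => ?_
    have b : ∀ k, |y ^ (a * (m + 1).choose 2 + k)| ≤ x ^ m := fun k => by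
      rw [abs_of_nonneg (pow_nonneg hy.1 _)]
      exact (pow_le_pow_of_le_one hy.1 (hy.2.trans h1.le) (le_e ha m k)).trans
        (pow_le_pow_left₀ hy.1 hy.2 m)
    rw [f, Real.norm_eq_abs, abs_mul]
    simpa [two_mul] using (abs_sub _ _).trans (add_le_add (b _) (b _))
  have F0 : ∑' m, f a 0 m = 1 := by
    rw [tsum_eq_single 0 fun m hm => ?_]
    · simp [f]
    · have := fun k => (Nat.pos_of_ne_zero hm).trans_le (le_e ha m k)
      simp only [f, zero_pow (this _).ne', sub_zero, mul_zero]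
  obtain ⟨y, hy, e⟩ := intermediate_value_Icc' h0 C
    (show 0 ∈ Set.Icc _ _ from ⟨(neg ha h2 h1 hx).le, by simp [F0]⟩)
  have y1 := hy.2.trans_lt h1
  have P := (sum_psi ha hy.1 y1).2
  have Q : Summable fun n => ‖(c n : ℝ) * y ^ n‖ := by
    have x0 : 0 < x := by linarith
    refine .of_norm_bounded_eventually_nat (summable_geometric_of_lt_one (r := (1 + x) / 2)
      (by linarith) (by linarith)) ((h ((1 + x) / 2 / x) (by
        rw [one_lt_div x0]; linarith)).mono fun n hn => ?_)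
    rw [norm_norm, Real.norm_eq_abs, abs_mul, abs_of_nonneg (pow_nonneg hy.1 _)]
    calc _ ≤ ((1 + x) / 2 / x) ^ n * x ^ n := by have := hy.1; gcongr; exact hy.2
      _ = _ := by rw [← mul_pow, div_mul_cancel₀ _ x0.ne']
  have := tsum_mul_tsum_eq_tsum_sum_antidiagonal_of_summable_norm Q P.summable.norm
  rw [P.tsum_eq, show ∑' m, f a y m = 0 from e, mul_zero, tsum_eq_single 0 fun n hn => ?_] at this
  · have := congrArg (PowerSeries.coeff 0) hc
    simp only [PowerSeries.coeff_mul, PowerSeries.coeff_mk] at this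
    simp_all [← Int.cast_mul]
  · have := congrArg (fun s => ((PowerSeries.coeff n s : ℤ) : ℝ) * y ^ n) hc
    simp only [PowerSeries.coeff_mul, PowerSeries.coeff_mk, PowerSeries.coeff_one, if_neg hn] at this
    push_cast at this
    rw [zero_mul, sum_mul] at this
    rw [← this]
    refine sum_congr rfl fun p hp => ?_
    rw [← mem_antidiagonal.1 hp]
    ring

end Pool.Agent.Results.MP_0ebc21_nt.Full
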